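import Pool.Agent.H.MP_1eaa31_an.Defs

namespace Pool.Agent.H.MP_1eaa31_an

open Pool.Agent.Lib.helper23.BL Set Filter Topology

variable {E : Type} [BanachLattice E]

section
variable {M : Type*} [TopologicalSpace M] {T : C(M, ℝ) →ₗ[ℝ] E}

theorem mono (hs : ∀ f g, T (f ⊔ g) = T f ⊔ T g) {f g : C(M, ℝ)} (h : f ≤ g) : T f ≤ T g := by
  rw [← sup_eq_right, ← hs, sup_eq_right.2 h]

theorem refl (hs : ∀ f g, T (f ⊔ g) = T f ⊔ T g) (hi : Function.Injective T) {f g : C(M, ℝ)}
    (h : T f ≤ T g) : f ≤ g := sup_eq_right.1 (hi (by rw [hs, sup_eq_right.2 h]))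

theorem map_abs (hs : ∀ f g, T (f ⊔ g) = T f ⊔ T g) (f : C(M, ℝ)) : T |f| = |T f| := by
  rw [abs, hs, map_neg]; rfl

theorem norm_mono (hs : ∀ f g, T (f ⊔ g) = T f ⊔ T g) {f g : C(M, ℝ)} (h : |f| ≤ g) :
    ‖T f‖ ≤ ‖T g‖ := HasSolidNorm.solid (by
  rw [← map_abs hs]; exact (mono hs h).trans (le_abs_self _))

theorem bound [CompactSpace M] (hs : ∀ f g, T (f ⊔ g) = T f ⊔ T g) (f : C(M, ℝ)) :
    ‖T f‖ ≤ ‖T 1‖ * ‖f‖ := by
  refine (norm_mono hs (g := ‖f‖ • 1) fun a => ?_).trans_eq ?_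
  · simpa using f.norm_coe_le_norm a
  · rw [map_smul, norm_smul, norm_norm, mul_comm]

theorem ideal {x : E} (h : Set.range T = PIdeal x) {y : E} {g : C(M, ℝ)} (h0 : |y| ≤ T g) :
    ∃ f, T f = y := by
  obtain ⟨c, c0, hc⟩ : T g ∈ PIdeal x := h ▸ mem_range_self g
  exact (h.ge ⟨c, c0, h0.trans ((le_abs_self _).trans hc)⟩ :)

end

theorem metr {K : Type*} [TopologicalSpace K] [CompactSpace K] [T2Space K]
    [TopologicalSpace.SeparableSpace C(K, ℝ)] : TopologicalSpace.MetrizableSpace K := by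
  obtain ⟨u, hu⟩ := TopologicalSpace.exists_dense_seq C(K, ℝ)
  have hc : Continuous fun (k : K) (n : ℕ) => u n k := by fun_prop
  refine (hc.isClosedEmbedding fun a b h => by_contra fun hab => ?_).isEmbedding.metrizableSpace
  obtain ⟨f, f0, f1, -⟩ := exists_continuous_zero_one_of_isClosed (isClosed_singleton (x := a))
    (isClosed_singleton (x := b)) (by simpa using hab)
  have : f a = f b := hu.induction_on (p := fun f => f a = f b) f
    (isClosed_eq (by fun_prop) (by fun_prop)) fun n => congrFun h n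
  rw [f0 rfl, f1 rfl] at this
  simp at this

theorem core {K L : Type*} [TopologicalSpace K] [CompactSpace K] [T2Space K] [TopologicalSpace L]
    [CompactSpace L] [T2Space L] [Infinite L] [TopologicalSpace.SeparableSpace E]
    {T : C(K × L, ℝ) →ₗ[ℝ] E} (hs : ∀ f g, T (f ⊔ g) = T f ⊔ T g) (hi : Function.Injective T)
    (hd : ∀ y, |y| ≤ T 1 → ∃ f, T f = y) : TopologicalSpace.MetrizableSpace K := by
  let S : C(K, ℝ) →L[ℝ] E := LinearMap.mkContinuous
    { toFun := fun a => T (a.comp ContinuousMap.fst)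
      map_add' := fun a b => by rw [← map_add]; rfl
      map_smul' := fun c a => by rw [← map_smul]; rfl } ‖T 1‖ fun a =>
    (bound hs _).trans (mul_le_mul_of_nonneg_left ((ContinuousMap.norm_le _ (norm_nonneg _)).2
      fun q => a.norm_coe_le_norm q.1) (norm_nonneg _))
  have S1 : ∀ a, S a = T (a.comp ContinuousMap.fst) := fun _ => rfl
  by_cases h : ∃ δ > 0, ∀ a : C(K, ℝ), ‖a‖ = 1 → δ ≤ ‖S a‖
  · obtain ⟨δ, δ0, h⟩ := h
    have e : IsEmbedding S := (S.antilipschitz_of_bound (K := ⟨δ⁻¹, by positivity⟩) fun a => by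
      rcases eq_or_ne a 0 with rfl | h0
      · simp
      have n0 := norm_pos_iff.2 h0
      have := h (‖a‖⁻¹ • a) (by rw [norm_smul, norm_inv, norm_norm, inv_mul_cancel₀ n0.ne'])
      rw [map_smul, norm_smul, norm_inv, norm_norm, le_inv_mul_iff₀ n0] at this
      show ‖a‖ ≤ δ⁻¹ * ‖S a‖
      rwa [le_inv_mul_iff₀ δ0, mul_comm]).isEmbedding S.continuous
    have := UniformSpace.secondCountable_of_separable E
    have := e.secondCountableTopology
    exact metr
  exfalso
  push Not at h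
  choose a a1 a2 using fun n : ℕ => h ((1 / 2) ^ n) (by positivity)
  obtain ⟨U, u1, u2, u3⟩ := exists_seq_infinite_isOpen_pairwise_disjoint L
  choose l hl using fun n => (u1 n).nonempty
  choose φ p0 p1 p2 using fun n => exists_continuous_zero_one_of_isClosed (u2 n).isClosed_compl
    (isClosed_singleton (x := l n)) (by simpa using hl n)
  let g : ℕ → C(K × L, ℝ) := fun n => |a n|.prodMul (φ n)
  have b0 : ∀ n k, |a n k| ≤ 1 := fun n k => (a1 n) ▸ (a n).norm_coe_le_norm k
  have g0 : ∀ n q, 0 ≤ g n q := fun n q => mul_nonneg (abs_nonneg (a n q.1)) (p2 n q.2).1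
  have g1 : ∀ n q, g n q ≤ |a n q.1| := fun n q =>
    mul_le_of_le_one_right (abs_nonneg (a n q.1)) (p2 n q.2).2
  have g2 : ∀ n, ‖T (g n)‖ ≤ (1 / 2) ^ n := fun n => by
    refine (norm_mono hs (g := |(a n).comp ContinuousMap.fst|) fun q => ?_).trans ?_
    · exact (abs_of_nonneg (g0 n q)).trans_le (g1 n q)
    · rw [map_abs hs, norm_abs_eq_norm]; exact (a2 n).le
  have sm : Summable fun n => T (g n) := Summable.of_norm_bounded summable_geometric_two g2
  have one : ∀ (F : Finset ℕ) q, ∃ m, q.2 ∈ U m ∧ ∑ n ∈ F, g n q ≤ g m q ∨ ∑ n ∈ F, g n q = 0 := by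
    intro F q
    have z : ∀ n, q.2 ∉ U n → g n q = 0 := fun n h => by
      show |a n q.1| * φ n q.2 = 0
      rw [p0 n h]; simp
    by_cases h : ∃ m, q.2 ∈ U m
    · obtain ⟨m, hm⟩ := h
      refine ⟨m, Or.inl ⟨hm, ?_⟩⟩
      rw [← Finset.sum_subset (Finset.inter_subset_left (s₂ := {m})) fun n h1 h2 => z n fun h3 =>
        disjoint_left.1 (u3 (show n ≠ m from fun k => h2 (by simp [k ▸ h1, k]))) h3 hm]
      exact (Finset.sum_le_sum_of_subset_of_nonneg Finset.inter_subset_right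
        fun i _ _ => g0 i q).trans_eq (Finset.sum_singleton _ _)
    · push Not at h
      exact ⟨0, Or.inr (Finset.sum_eq_zero fun n _ => z n (h n))⟩
  have up : ∀ G : C(K × L, ℝ), (∀ q, 0 ≤ G q) → (∀ m q, q.2 ∈ U m → g m q ≤ G q) →
      ∑' n, T (g n) ≤ T G := fun G h0 h1 => sm.tsum_le_of_sum_le fun F => by
    rw [← map_sum]
    refine mono hs fun q => ?_
    show (∑ n ∈ F, g n) q ≤ G q
    rw [ContinuousMap.sum_apply]
    obtain ⟨m, h | h⟩ := one F q
    · exact h.2.trans (h1 m q h.1)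
    · exact h.trans_le (h0 q)
  have t0 : ∀ n, 0 ≤ T (g n) := fun n => by simpa using mono hs (f := 0) (g0 n)
  obtain ⟨f, hf⟩ := hd (∑' n, T (g n)) (by
    rw [abs_of_nonneg (tsum_nonneg t0)]
    exact up 1 (fun _ => zero_le_one) fun m q _ => (g1 m q).trans (b0 m _))
  have key : ∀ n k, f (k, l n) = |a n k| := fun n k => by
    have e : g n (k, l n) = |a n k| := by
      show |a n k| * φ n (l n) = _
      rw [p1 n rfl]; simp
    have h1 : g n (k, l n) ≤ f (k, l n) :=
      refl hs hi (hf ▸ sm.le_tsum n fun j _ => t0 j) (k, l n)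
    have h2 : f (k, l n) ≤ g n (k, l n) + (1 - φ n (l n)) :=
      refl hs hi (g := g n + (1 - (φ n).comp ContinuousMap.snd)) (hf.trans_le <| up _ (fun q => by
        show 0 ≤ g n q + (1 - φ n q.2)
        linarith [g0 n q, (p2 n q.2).2]) fun m q hq => by
        show g m q ≤ g n q + (1 - φ n q.2)
        by_cases k : m = n
        · rw [k]; linarith [(p2 n q.2).2]
        · rw [p0 n (disjoint_left.1 (u3 k) hq)]
          simp only [Pi.zero_apply]
          linarith [g0 n q, g1 m q, b0 m q.1]) (k, l n)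
    rw [p1 n rfl, e] at h2
    rw [e] at h1
    simp only [Pi.one_apply] at h2
    linarith
  let F : C(L, C(K, ℝ)) := (f.comp ContinuousMap.prodSwap).curry
  have F1 : ∀ n, F (l n) = |a n| := fun n => ContinuousMap.ext (key n)
  have F2 : ∀ n, ‖F (l n)‖ = 1 := fun n => by
    rw [F1, ← a1 n, ContinuousMap.norm_eq_iSup_norm, ContinuousMap.norm_eq_iSup_norm]
    simp
  obtain ⟨z, z1, z2⟩ := (isClosed_eq (by fun_prop : Continuous fun z => ‖F z‖)
    (continuous_const (y := (1 : ℝ)))).isCompact.exists_isMinOn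
    ⟨l 0, F2 0⟩ (by fun_prop : ContinuousOn (fun z => ‖S (F z)‖) _)
  have z3 : ‖S (F z)‖ ≤ 0 := ge_of_tendsto' (tendsto_pow_atTop_nhds_zero_of_lt_one
    (r := (1 / 2 : ℝ)) (by norm_num) (by norm_num)) fun n => by
      refine (z2 (show l n ∈ {z | ‖F z‖ = 1} from F2 n)).trans ?_
      show ‖S (F (l n))‖ ≤ _
      rw [F1, S1, show |a n|.comp (ContinuousMap.fst (β := L)) =
        |(a n).comp ContinuousMap.fst| from rfl, map_abs hs, norm_abs_eq_norm]
      exact (a2 n).le
  have z4 : (F z).comp (ContinuousMap.fst (β := L)) = 0 :=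
    hi ((norm_le_zero_iff.1 z3).trans (map_zero T).symm)
  have z5 : F z = 0 := ContinuousMap.ext fun k => DFunLike.congr_fun z4 (k, z)
  rw [mem_ofPred_eq, z5] at z1
  simp at z1

end Pool.Agent.H.MP_1eaa31_an
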