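import Mathlib
import Pool.Agent.Lib.helper23.BLDef

namespace Pool.Agent.H.MP_1eaa31_an

open Pool.Agent.Lib.helper23.BL

/-- the principal ideal generated by an element -/
def PIdeal {E : Type} [BanachLattice E] (x : E) : Set E := {y | ∃ c : ℝ, 0 < c ∧ |y| ≤ c • x}

/-- `C(K)` is isomorphic as a vector lattice to a principal ideal of a separable Banach lattice -/
def Sick (K : Type*) [TopologicalSpace K] : Prop :=
  ∃ (E : Type) (_ : BanachLattice E) (x : E) (T : C(K, ℝ) →ₗ[ℝ] E),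
    TopologicalSpace.SeparableSpace E ∧ 0 ≤ x ∧ Function.Injective T ∧ Set.range T = PIdeal x ∧
      (∀ f g, T (f ⊔ g) = T f ⊔ T g) ∧ ∀ f g, T (f ⊓ g) = T f ⊓ T g

end Pool.Agent.H.MP_1eaa31_an
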